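import Pool.Agent.X159.TZ.TwMain

set_option autoImplicit false

/-! # The monodromy conjecture for twisted topological zeta functions: reduction to cubics

For every integer `e ≥ 1` we prove that the monodromy conjecture for the twisted topological zeta
functions `Z^(e)` of ALL non-constant polynomials, of all degrees and in all numbers of variables, is
EQUIVALENT to the same statement for the cubic polynomials `x_0 + ∑_j t_j q_j(x)`, `q_j` of degree at
most two, that is, for coordinate functions restricted to intersections of quadrics. The same is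
proved for the strong forms: every pole of `Z^(e)` is a root of `b_f`; and `b_f Z^(e)` is a polynomial.
All polynomials may have coefficients in a given subfield `k` of `ℂ`.

Method. Every polynomial `f` becomes such a cubic by adding products `y_i z_i` of new variables and an
automorphism of the polynomial ring. For `e ≥ 2` the twisted topological zeta function of
`F = f + y_1 z_1 + ⋯ + y_κ z_κ` is simply `Z^(e)_F(s) = Z^(e)_f(s + κ)`. This is proved from the classes
of the covers `U_{d,k} = {(φ, w) | f(φ) = w ^ k t ^ d mod t ^ (d + 1), w ≠ 0}` (`JetC`) of the sets of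
jets, without resolution of singularities:
`[U_{d,k}(f + y z)] = [U_{d,k}(f)] 𝕃 ^ (d + 1) + (𝕃 - 1) ^ 2 𝕃 ^ d ∑_{i ≤ d} [ord f ≥ i]`, and the last
term does not depend on `k`, so it does not contribute to `Z^(e)`, `e ≥ 2`.

The twisted topological zeta function is defined as in the starting files from the spaces of jets, as
Denef and Loeser do (`IsTwistedTop E ε f e Z`): `φ(e) Z^(e) = ∑_{i k = e} μ(i) Y_k`, where `Y_k` is the
topological zeta function of the series `∑_{d ≥ 1} [U_{d,k}] 𝕃 ^ (-n d) T ^ d`. -/

namespace Pool.Agent.Results.MP_b22d1f_ag.CubicsTwisted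

open MvPolynomial Pool.Agent.W428.MOT Pool.Agent.TH192.MU Pool.Agent.X159.TZ
open Pool.Agent.X271.RD (cubic stab)

/-- **Reduction of the monodromy conjecture for twisted topological zeta functions to cubics.**
For `P` one of `PWeak` (for every pole `s₀` of `Z`, `exp(2 π i s₀) = exp(2 π i r)` for a root `r` of `b`),
`PRoots` (every pole of `Z` is a root of `b`), `POrders` (`b Z` is a polynomial), let `TwP E ε e P f` say that
`P Z b` holds for the twisted topological zeta function `Z = Z^(e)` of `f` and every `b` with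
`b(s) f ^ s = P(s) f ^ (s + 1)`, in particular the Bernstein-Sato polynomial; by the theorem of
Malgrange and Kashiwara the numbers `exp(2 π i r)`, `r` a root of it, are the eigenvalues of the
monodromy of `f`. Let `e ≥ 1`.

(1) `TwP E ε e P f` holds for all non-constant polynomials `f` over the subfield `k` of `ℂ` if and only if
it holds for all cubics `x_0 + ∑_j t_j q_j(x)` over `k` with `q_j` of degree at most two.

(2) If `f` is non-constant, `κ ≥ 2`, and the image `F` of `f + ∑_{i < κ} y_i z_i` under some automorphism of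
the polynomial ring satisfies `TwP E ε e P F`, then `f` satisfies `TwP E ε e P f`.

(3) For `e ≥ 2`, if `Z` is the twisted topological zeta function of `f`, then the one of `F` is
`Z(s + κ)`, for every `κ`. -/
theorem result (R : Type) [CommRing R] [IsDomain R] (E : MK ℂ →+* R) (ε : R →+* ℂ)
    (hε : ε (E ((Lu ℂ : (MK ℂ)ˣ) : MK ℂ)) = 1) (hE : E ((Lu ℂ : (MK ℂ)ˣ) : MK ℂ) ≠ 1)
    (e : ℕ) (he : 1 ≤ e) :
    (∀ P : RatFunc ℂ → Polynomial ℂ → Prop, P = PWeak ∨ P = PRoots ∨ P = POrders →
      (∀ (k : Type) [Field k] [Algebra k ℂ],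
        (∀ (n : ℕ) (f : MvPolynomial (Fin n) k), f.totalDegree ≠ 0 →
          TwP E ε e P (map (algebraMap k ℂ) f)) ↔
        ∀ (n l : ℕ) (q : Fin l → MvPolynomial (Fin (n + 1)) k), (∀ j, (q j).totalDegree ≤ 2) →
          TwP E ε e P (map (algebraMap k ℂ) (cubic q))) ∧
      ∀ (n : ℕ) (f : MvPolynomial (Fin n) ℂ), f.totalDegree ≠ 0 → ∀ κ : ℕ, 2 ≤ κ →
        ∀ Φ : MvPolynomial (Fin (n + (κ + κ))) ℂ ≃ₐ[ℂ] MvPolynomial (Fin (n + (κ + κ))) ℂ,
          TwP E ε e P (Φ (stab f κ)) → TwP E ε e P f) ∧
    (2 ≤ e → ∀ (n : ℕ) (f : MvPolynomial (Fin n) ℂ) (Z : RatFunc ℂ), IsTwistedTop E ε f e Z →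
      ∀ (κ : ℕ)
        (Φ : MvPolynomial (Fin (n + (κ + κ))) ℂ ≃ₐ[ℂ] MvPolynomial (Fin (n + (κ + κ))) ℂ),
          IsTwistedTop E ε (Φ (stab f κ)) e (sh κ Z)) := by
  refine ⟨fun P hP => ?_, fun he2 n f Z hZ κ Φ => twisted_stab hε hE he2 hZ κ Φ⟩
  have hd : ∀ κ, 2 ≤ κ → DescS κ P ∧ Desc κ P := by
    intro κ hκ
    rcases hP with rfl | rfl | rfl
    · exact ⟨descS_weak κ, desc_weak κ⟩
    · exact ⟨descS_roots hκ, desc_roots hκ⟩
    · exact ⟨descS_orders hκ, desc_orders (by omega)⟩
  have hc : CInv P := by
    rcases hP with rfl | rfl | rfl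
    · exact cinv_weak
    · exact cinv_roots
    · exact cinv_orders
  exact ⟨fun k _ _ => cubicsTw hε hE hd hc he k, fun n f hf κ hκ Φ h =>
    transferTw hε hE (hd κ hκ).1 (hd κ hκ).2 hc he hf Φ h⟩

end Pool.Agent.Results.MP_b22d1f_ag.CubicsTwisted
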