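import Pool.Agent.X271.TwGen

/-!
# Twisted topological zeta functions of generic compositions: roots of `b_f`, with orders

The monodromy conjecture in the strong form (poles are roots of the Bernstein-Sato polynomial, the
orders of the poles are at most the multiplicities of the roots) for the twisted topological zeta
functions `Z^(e)`, all `e ≥ 1`, global and local, of

* the functions `f` on `ℂ ^ N` such that `f + y_1 z_1 + ⋯ + y_k z_k` becomes, by an automorphism of the
  polynomial ring, a polynomial with arbitrary exponents and generic coefficients (at some exponents,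
  for instance at the vertices of the Newton polytope; the other terms are arbitrary), in particular
  of the polynomials with generic coefficients (`k = 0`);
* the compositions `f(x) = Φ(x, p_1(x), …, p_k(x))`, also iterated ones, of polynomials with arbitrary
  exponents and generic coefficients, for example products of powers `x ^ u ∏ p_i ^ (e_i)`, sums of such
  products, `((x_2 ^ 2 - x_1 ^ 3) ^ 2 - x_1 ^ 5 x_2) ^ 2 + …`; they are in general not reduced and degenerate
  with respect to their Newton polytopes, in all coordinates;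
* the germs of functions which become generic in this way in formal coordinates and up to a unit
  factor, in particular functions on generic smooth complete intersections.

For `e ≥ 2` the result is sharper: all poles are roots of the reduced Bernstein-Sato polynomial
`b_f(s) / (s + 1)`, of at least the same order.

Method. If `b(s) = (s + 1) c(s)` satisfies a functional equation of `f`, then `(s + 1) c(s + k)` satisfies
one of `G = f + ∑ y_i z_i`, hence of the generic polynomial. If the coefficients of the latter are
very general, the functional equation gives a relation, and the relation gives the polar part of the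
twisted zeta function; `(s + 1) c(s + k) Z_G^(e)` is divisible by `s + 1` for `e ≥ 2`. Gröbner bases in
the Weyl algebra over the field of the coefficients (starting library) give the passage to generic
coefficients, with one condition for all `e`. Finally `Z_f^(e)(s) = Z_G^(e)(s - k)` for `e ≥ 2`.
-/

set_option autoImplicit false

namespace Pool.Agent.Results.MP_b22d1f_ag.GenericCompositionsTwisted

open Polynomial Pool.Agent.H628R4.TP
open Pool.Agent.W425.SM (sparse SmoothFan Principal)
open Pool.Agent.W425.MM (NonD we wc)
open Pool.Agent.X271.TwD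

/-- **The strong monodromy conjecture, with orders, for all twisted topological zeta functions of
generic compositions.**

`F ⊆ ℂ` is a field. `StrongTw b k Z` says: `b(s) (s - k) Z^(1)(s)` is a polynomial, `b = (s + 1) c` for some
polynomial `c`, and `c(s) Z^(e)(s)` is a polynomial for all `e ≥ 2`. Here `Z^(e) = unstab k e Z_G^(e)` is
`Z_G^(e)(s - k)` for `e ≥ 2` and given by
`1 - Z(s) = (1 - Z_G(s - k)) s (s - k + 1) / ((s - k) (s + 1))` for `e = 1`: the twisted topological zeta
function of `f` if `Z_G^(e)` is that of `G = f + ∑_{i ≤ k} y_i z_i`. (All the poles of `Z^(e)` are negative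
rational numbers, so they are roots of `b`, and of `c` if `e ≥ 2`, of at least the same order.)

(1) Global. Let `v_j ≠ 0` be distinct exponents in `N + 2 k` variables, `j = 1, …, r`, and `h` a polynomial
over `F` with exponents in the convex hull of the `v_j` (`InHull`). For a nonzero polynomial `g` over
`F` and all `a ∈ ℂ ^ r` with `g(a) ≠ 0`: `G_a = ∑ a_j X ^ (v_j) + h` is nondegenerate (`NonD`, for the
exponents and coefficients `v`, `a` and those of `h`, `we h`, `wc h`), and `StrongTw` holds for
every non-constant `f ∈ ℂ[x_1, …, x_N]` such that `f + ∑_{i ≤ k} y_i z_i` becomes `G_a` by an automorphism of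
the polynomial ring (`BecomesG`), for every `b` with `IsBFunction f b` (`b(s) f ^ s = P(s) f ^ (s + 1)`, `P`
in the Weyl algebra; for example `b = b_f`). `twistedG v R e` is the global twisted topological zeta
function of the nondegenerate `G_a` on the toric resolution given by any smooth fan `R` on which the
ideal of the `X ^ (v_j)` is principal (for `e = 1` with the constant `χ({f ≠ 0})`).

(2) Compositions. Let exponents `m_j` of monomials in `x_1, …, x_N, z_1, …, z_k` be given in groups
`π j ∈ {0, …, k}` (distinct in each group, nonzero in the group `0`), and polynomials `H_i` over `F` with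
exponents in the convex hull of the `m_j` with `π j = i` (`InHullT`). Let
`tup π m a H i = ∑_{π j = i} a_j X ^ (m_j) + H_i`, `Φ_a = tup π m a H 0` and `l_i = tup π m a H i`, `i ≥ 1`.
Then the polynomial `G = Φ_a + ∑ y_i l_i` has the exponents `exps π m` (and exponents in their convex
hull), so it is nondegenerate for generic `a` by (1). For a nonzero polynomial `g` over `F` and all
`a` with `g(a) ≠ 0`: if `l_i = c_i z_i - p_i(x)`, `c_i ≠ 0`, and
`f = Φ_a(x, p_1(x) / c_1, …, p_k(x) / c_k)` is not constant, `StrongTw` holds for `f`; the same is true for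
non-constant `f` with `Φ_a = f + ∑ q_i l_i`, if `θ(x_i) = x_i`, `θ(z_i) = l_i` for an automorphism `θ` of
`ℂ[x, z]` (iterated compositions: `l_i = c_i z_i - p_i(x, z_1, …, z_{i-1})`).

(3) Local. As in (1), with exponents of `h` in the Newton polyhedron `conv {v_j} + ℝ_{≥ 0} ^ M`
(`InPoly`), for the local twisted topological zeta function at the origin (`twistedL`), a formal power
series `f ≠ 0`, `f(0) = 0`, such that `f + ∑ y_i z_i` becomes `G_a` in formal coordinates at the origin, up
to a unit factor (`BecomesL`), and `b` with a functional equation with formal power series coefficients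
(`IsFormalBFunction`), for example the local Bernstein-Sato polynomial.

(4) Functions on generic smooth complete intersections, local. As in (2), with all `m_j ≠ 0` and the
exponents of `H_i` in the Newton polyhedron of the `m_j` with `π j = i` or `π j = 0` (`InPolyT`), if the
matrix of the `∂ l_i / ∂ z_j` is invertible at the origin, and `Φ_a = f + ∑ q_i l_i` with formal power
series `f ≠ 0`, `q_i`, `q_i(0) = 0`: `f` is the restriction of `Φ_a` to `l_1 = ⋯ = l_k = 0`. -/
theorem result :
    (∀ {N k r : ℕ}, 1 ≤ r → ∀ (F : Subfield ℂ) (v : Fin r → Fin (N + (k + k)) → ℕ),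
      Function.Injective v → (∀ j, v j ≠ 0) → ∀ h : MvPolynomial (Fin (N + (k + k))) F,
      (∀ w ∈ h.support, InHull v w) →
      ∃ g : MvPolynomial (Fin r) F, g ≠ 0 ∧ ∀ a : Fin r → ℂ, MvPolynomial.aeval a g ≠ 0 →
        NonD (Fin.append v (we h)) (Fin.append a (fun l => algebraMap F ℂ (wc h l))) ∧
        ∀ f : MvPolynomial (Fin N) ℂ, f.totalDegree ≠ 0 →
          BecomesG f k (sparse v a + MvPolynomial.map (algebraMap F ℂ) h) →
          ∀ b : ℂ[X], IsBFunction f b → ∀ R : SmoothFan (N + (k + k)), Principal v R →
            StrongTw b k fun e => unstab k e (twistedG v R e)) ∧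
    (∀ {N k r : ℕ}, 1 ≤ r → ∀ (F : Subfield ℂ) (π : Fin r → Fin (k + 1))
      (m : Fin r → Fin (N + k) → ℕ), (∀ j j', π j = π j' → m j = m j' → j = j') →
      (∀ j, π j = 0 → m j ≠ 0) → ∀ H : Fin (k + 1) → MvPolynomial (Fin (N + k)) F,
      (∀ i, ∀ w ∈ (H i).support, InHullT π m i w) →
      ∃ g : MvPolynomial (Fin r) F, g ≠ 0 ∧ ∀ a : Fin r → ℂ, MvPolynomial.aeval a g ≠ 0 →
        ∀ T : Fin (k + 1) → MvPolynomial (Fin (N + k)) ℂ,
          T = tup π m a (fun i => MvPolynomial.map (algebraMap F ℂ) (H i)) →
        (∀ (c : Fin k → ℂ) (p : Fin k → MvPolynomial (Fin N) ℂ), (∀ i, c i ≠ 0) →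
          (∀ i : Fin k, T i.succ = MvPolynomial.C (c i) *
            MvPolynomial.X (Fin.natAdd N i) - MvPolynomial.rename (Fin.castAdd k) (p i)) →
          ∀ f : MvPolynomial (Fin N) ℂ, f = MvPolynomial.aeval (Fin.append MvPolynomial.X
            fun i => MvPolynomial.C (c i)⁻¹ * p i) (T 0) → f.totalDegree ≠ 0 →
          ∀ b : ℂ[X], IsBFunction f b →
          ∀ R : SmoothFan (N + (k + k)), Principal (exps π m) R →
            StrongTw b k fun e => unstab k e (twistedG (exps π m) R e)) ∧
        (∀ θ : MvPolynomial (Fin (N + k)) ℂ ≃ₐ[ℂ] MvPolynomial (Fin (N + k)) ℂ,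
          (∀ i, θ (MvPolynomial.X (Fin.castAdd k i)) = MvPolynomial.X (Fin.castAdd k i)) →
          (∀ i : Fin k, θ (MvPolynomial.X (Fin.natAdd N i)) = T i.succ) →
          ∀ (f : MvPolynomial (Fin N) ℂ) (q : Fin k → MvPolynomial (Fin (N + k)) ℂ),
            f.totalDegree ≠ 0 → T 0 =
              MvPolynomial.rename (Fin.castAdd k) f + ∑ i, q i * T i.succ →
          ∀ b : ℂ[X], IsBFunction f b →
          ∀ R : SmoothFan (N + (k + k)), Principal (exps π m) R →
            StrongTw b k fun e => unstab k e (twistedG (exps π m) R e))) ∧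
    (∀ {M r : ℕ}, 1 ≤ r → ∀ (F : Subfield ℂ) (v : Fin r → Fin M → ℕ),
      Function.Injective v → (∀ j, v j ≠ 0) → ∀ h : MvPolynomial (Fin M) F,
      (∀ w ∈ h.support, InPoly v w) →
      ∃ g : MvPolynomial (Fin r) F, g ≠ 0 ∧ ∀ a : Fin r → ℂ, MvPolynomial.aeval a g ≠ 0 →
        ∀ (N k : ℕ) (e : M = N + (k + k)) (f : MvPowerSeries (Fin N) ℂ), f ≠ 0 →
          MvPowerSeries.constantCoeff f = 0 →
          BecomesL f k (MvPolynomial.rename (Fin.cast e)
            (sparse v a + MvPolynomial.map (algebraMap F ℂ) h)) →
          ∀ b : ℂ[X], IsFormalBFunction f b → ∀ R : SmoothFan M, Principal v R →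
            StrongTw b k fun e => unstab k e (twistedL v R e)) ∧
    (∀ {N k r : ℕ}, 1 ≤ r → ∀ (F : Subfield ℂ) (π : Fin r → Fin (k + 1))
      (m : Fin r → Fin (N + k) → ℕ), (∀ j j', π j = π j' → m j = m j' → j = j') →
      (∀ j, m j ≠ 0) → ∀ H : Fin (k + 1) → MvPolynomial (Fin (N + k)) F,
      (∀ i, ∀ w ∈ (H i).support, InPolyT π m i w) →
      ∃ g : MvPolynomial (Fin r) F, g ≠ 0 ∧ ∀ a : Fin r → ℂ, MvPolynomial.aeval a g ≠ 0 →
        ∀ T : Fin (k + 1) → MvPolynomial (Fin (N + k)) ℂ,
          T = tup π m a (fun i => MvPolynomial.map (algebraMap F ℂ) (H i)) →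
        (Matrix.of fun i j : Fin k => MvPolynomial.coeff (Finsupp.single (Fin.natAdd N j) 1)
          (T i.succ)).det ≠ 0 →
        ∀ (f : MvPowerSeries (Fin N) ℂ) (q : Fin k → MvPowerSeries (Fin (N + k)) ℂ), f ≠ 0 →
          (∀ i, MvPowerSeries.constantCoeff (q i) = 0) →
          (T 0 : MvPowerSeries (Fin (N + k)) ℂ) = MvPowerSeries.rename (Fin.castAdd k) f +
            ∑ i, q i * (T i.succ : MvPowerSeries (Fin (N + k)) ℂ) →
          ∀ b : ℂ[X], IsFormalBFunction f b →
          ∀ R : SmoothFan (N + (k + k)), Principal (exps π m) R →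
            StrongTw b k fun e => unstab k e (twistedL (exps π m) R e)) := by
  refine ⟨?_, ?_, ?_, ?_⟩
  · intro N k r hr F v hv hv0 h hh
    exact Pool.Agent.X271.TwG.strongTwG hr F v hv hv0 h hh
  · intro N k r hr F π m hinj hm H hH
    obtain ⟨g, hg0, hg⟩ := Pool.Agent.X271.TwG.graph_tw hr F π m hinj hm H hH
    refine ⟨g, hg0, fun a ha T hT => ?_⟩
    subst hT
    refine ⟨?_, (hg a ha).2⟩
    intro c p hc hl f hf hf0 b hb R hR
    obtain ⟨θ, h1, h2⟩ := Pool.Agent.Y229.PG.graph_equiv c hc p
    obtain ⟨q, hq⟩ := Pool.Agent.Y229.PG.graph_restrict c hc p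
      (tup π m a (fun i => MvPolynomial.map (algebraMap F ℂ) (H i)) 0)
    refine (hg a ha).2 θ h1 (fun i => ?_) f q hf0 ?_ b hb R hR
    · rw [h2]
      exact (hl i).symm
    · rw [hf]
      refine hq.trans ?_
      congr 1
      exact Finset.sum_congr rfl fun i _ => by rw [← hl i]; rfl
  · intro M r hr F v hv hv0 h hh
    exact Pool.Agent.X271.TwG.strongTwL hr F v hv hv0 h hh
  · intro N k r hr F π m hinj hm H hH
    obtain ⟨g, hg0, hg⟩ := Pool.Agent.X271.TwG.ci_tw hr F π m hinj hm H hH
    refine ⟨g, hg0, fun a ha T hT => ?_⟩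
    subst hT
    exact hg a ha

end Pool.Agent.Results.MP_b22d1f_ag.GenericCompositionsTwisted
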