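import Pool.Agent.X271.TtFin

/-!
# Twisted topological zeta functions of Thom-Sebastiani sums, products of powers and compositions

The monodromy conjecture for the twisted topological zeta functions `Z^(e)`, `e ≥ 1`, says: if `s₀` is a
pole of `Z_f^(e)`, then `s₀ - t` is a root of the Bernstein-Sato polynomial `b_f` for some `t ∈ ℕ` (weak
form), or even `t = 0` (strong form).

For `F = ∑ y_j f_j(x) + g(z)`, `e ≥ 2`, the weighted volumes (for a character of order `e` of the angular
component) of the arcs with `ord F = m` are those of `g` times the volume of `ord (f_j) > m`. So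
`Z_F^(e)(s) = ∫ V(t) U_e(t) exp(- s t) dt` if `Z_g^(e)(s) = ∫ U_e(t) exp(- s t) dt` and
`1 - Z_I(s) = s ∫ V(t) exp(- s t) dt` for the topological zeta function `Z_I` of the ideal
`I = (f_j)`; see `Pool/Agent/X271/TtDef`.

Let `𝓗` be a class of polynomials `g` for which all the poles of `Z_g^(e)`, `e ≥ 2`, and of `(s + 1) Z_g`
are roots (modulo `ℕ` in the weak form) of the REDUCED Bernstein-Sato polynomial `b_g(s) / (s + 1)`.
We prove that the class generated by `𝓗` with the following operations has the same property.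

* `∑ y_j f_j(x)` and `∑ y_j f_j(x) + g(z)`, with new variables `y_j`, for ideals `(f_j)` in the class `𝓘'`
  generated (by sums and products in disjoint variables, powers of principal ideals, and by the
  hypersurfaces obtained in this way) by ideals for which the (untwisted) monodromy conjecture holds;
* products in disjoint sets of variables;
* the passage from an image of `f + y_1 z_1 + ⋯ + y_k z_k`, `k ≥ 0`, under an automorphism of the polynomial
  ring, to `f`; for example, from `Φ(x, z) + ∑ y_i (c_i z_i - p_i(x))` to the composition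
  `Φ(x, p_1(x) / c_1, …, p_k(x) / c_k)`;
* dropping variables which do not occur.

It follows that the conjecture holds for all `Z^(e)` of the products of powers of these polynomials
in disjoint sets of variables. The unconditional results are obtained for `𝓗` the polynomials with
very general coefficients at the vertices of the Newton polytope (strong form), and the nondegenerate
polynomials (weak form), and for the ideals and hypersurfaces in the starting library: for example for
`∑ y_j f_j(x_1, x_2) + f(z)`, with arbitrary `f_j`, and compositions `f` (neither reduced nor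
nondegenerate in general) with very general coefficients.
-/

set_option autoImplicit false

namespace Pool.Agent.Results.MP_b22d1f_ag.ThomSebastianiTwisted

open MvPolynomial Pool.Agent.H628R4.TP
open Pool.Agent.W574.RO (Fam)
open Pool.Agent.Y228.AT (AllGlobal)
open Pool.Agent.Y230.TH (WeakAt WeakHyp StrongHyp)
open Pool.Agent.W425.SM (SmoothFan Principal)
open Pool.Agent.W425.ND (Nondeg)
open Pool.Agent.W422.GC (topZetaG)
open Pool.Agent.X271.TwD (unstab exps InHullT tup twistedG)
open Pool.Agent.X271.TcD (Mon Sh)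
open Pool.Agent.X271.TtD (TW PW MonTw StrongTwist WeakTwist)

/-- **The monodromy conjecture for the twisted topological zeta functions of Thom-Sebastiani sums.**
`TW At HAt HT σ f Z W`: the class of polynomials `f` with `Z = Z_f` and `W e = Z_f^(e)`, `e ≥ 2`, generated by
`HT` with the operations in the introduction, where the ideals are in the class generated by the
ideals `At` and the hypersurfaces `HAt`. `PW At HAt HT σ f Z`: the products of powers of these
polynomials in disjoint variables, `Z e = Z_f^(e)` for all `e ≥ 1`. `Mon w c A Z`: the strong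
(`w = false`) or weak (`w = true`) conjecture for the ideal `A` and `Z`, for `c = true` with its reduced
form. `MonTw w σ f Z W`: the same, reduced, for `f` and `Z` and all `W e`, `e ≥ 2`.

(1) If the members of `At`, `HAt` satisfy `Mon w` and those of `HT` satisfy `MonTw w`, then `MonTw w` holds
for all members of `TW At HAt HT`, and for `f` in `PW At HAt HT`, all `e ≥ 1` and all poles `s₀` of `Z e` there is
`t` (`t = 0` or `t ∈ ℕ`) with `b(s₀ - t) = 0` for all `b` with `b(s) f ^ s = P(s) f ^ (s + 1)`.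

(2) Weak form. If `PW WeakAt WeakHyp WeakTwist σ f Z` and `b` satisfies a functional equation of `f`, then
for all `e ≥ 1` and all poles `s₀` of `Z e = Z_f^(e)` there is `i ∈ ℕ` with `b(s₀ - i) = 0`.

(3) Strong form. If `PW AllGlobal StrongHyp StrongTwist σ f Z` and `b` satisfies a functional equation of
`f`, then `b(s₀) = 0` for all `e ≥ 1` and all poles `s₀` of `Z e`. If
`TW AllGlobal StrongHyp StrongTwist σ f Z W` and `b = (s + 1) c` satisfies a functional equation of `f`, then
`c(s₀) = 0` for all `e ≥ 2` and all poles `s₀` of `W e = Z_f^(e)`.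

(4) Compositions with very general coefficients are in the class. Let exponents `m_j` of monomials in
`x_1, …, x_N, z_1, …, z_k` be given in groups `π j ∈ {0, …, k}` (distinct in each group, nonzero in
the group `0`), let `H_i` be polynomials with coefficients in a field `F ⊆ ℂ` with exponents in the
convex hull of the `m_j` with `π j = i` (`InHullT`), and `a ∈ ℂ ^ r` algebraically independent over
`F`. Let `T_i = tup π m a H i = ∑_{π j = i} a_j X ^ (m_j) + H_i`, `Φ = T_0`, `l_i = T_i`, `i ≥ 1`. Let `f` be not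
constant, and `f(x) = Φ(x, p_1(x) / c_1, …, p_k(x) / c_k)` where `l_i = c_i z_i - p_i(x)`, `c_i ≠ 0`, or,
more generally, `Φ = f + ∑ q_i l_i`, where `θ(x_i) = x_i`, `θ(z_i) = l_i` for an automorphism `θ` of `ℂ[x, z]`
(iterated compositions). Then `f` is in the class in (3), with its zeta functions given by those
of `G = Φ + ∑ y_i l_i` on a toric resolution (`unstab`; if the formula for `Z_f` has no pole at `k ≥ 0`,
which is true because all poles of topological zeta functions are negative).

(5) Nondegenerate compositions are in the class. As (4), with `H = 0` and all `a` such that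
`G = Φ + ∑ y_i l_i` is nondegenerate, for the class in (2), if `(s + 1) Z_G` and the `Z_G^(e)`, `e ≥ 2`, have no
pole at `-1` and at the natural numbers (which is always true for `k ≥ 1`, by the formulas and because
the poles of `Z_f` and `Z_f^(e)` are negative). -/
theorem result :
    (∀ (w : Bool) (At HAt : Fam → RatFunc ℂ → Prop)
      (HT : (σ : Type) → MvPolynomial σ ℂ → RatFunc ℂ → (ℕ → RatFunc ℂ) → Prop),
      (∀ A Z, At A Z → Mon w false A Z) → (∀ A Z, HAt A Z → Mon w true A Z) →
      (∀ σ f Z W, HT σ f Z W → MonTw w σ f Z W) →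
      (∀ σ f Z W, TW At HAt HT σ f Z W → MonTw w σ f Z W) ∧
      ∀ σ f Z, PW At HAt HT σ f Z → ∀ e : ℕ, 1 ≤ e → ∀ s₀ : ℂ, (Z e).denom.eval s₀ = 0 →
        ∃ t : ℂ, Sh w t ∧ ∀ b : Polynomial ℂ, IsBFunction f b → b.eval (s₀ - t) = 0) ∧
    (∀ σ f Z, PW WeakAt WeakHyp WeakTwist σ f Z → ∀ b : Polynomial ℂ, IsBFunction f b →
      ∀ e : ℕ, 1 ≤ e → ∀ s₀ : ℂ, (Z e).denom.eval s₀ = 0 → ∃ i : ℕ, b.eval (s₀ - i) = 0) ∧
    ((∀ σ f Z, PW AllGlobal StrongHyp StrongTwist σ f Z → ∀ b : Polynomial ℂ, IsBFunction f b →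
      ∀ e : ℕ, 1 ≤ e → ∀ s₀ : ℂ, (Z e).denom.eval s₀ = 0 → b.eval s₀ = 0) ∧
    (∀ σ f Z W, TW AllGlobal StrongHyp StrongTwist σ f Z W → ∀ c : Polynomial ℂ,
      IsBFunction f ((Polynomial.X + 1) * c) →
      ∀ e : ℕ, 2 ≤ e → ∀ s₀ : ℂ, (W e).denom.eval s₀ = 0 → c.eval s₀ = 0)) ∧
    (∀ {N k r : ℕ}, 1 ≤ r → ∀ (F : Subfield ℂ) (π : Fin r → Fin (k + 1))
      (m : Fin r → Fin (N + k) → ℕ), (∀ j j', π j = π j' → m j = m j' → j = j') →
      (∀ j, π j = 0 → m j ≠ 0) → ∀ H : Fin (k + 1) → MvPolynomial (Fin (N + k)) F,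
      (∀ i, ∀ w ∈ (H i).support, InHullT π m i w) → ∀ a : Fin r → ℂ, AlgebraicIndependent F a →
      ∀ R : SmoothFan (N + (k + k)), Principal (exps π m) R →
      ∀ f : MvPolynomial (Fin N) ℂ, f.totalDegree ≠ 0 →
      ∀ T : Fin (k + 1) → MvPolynomial (Fin (N + k)) ℂ,
        T = tup π m a (fun i => MvPolynomial.map (algebraMap F ℂ) (H i)) →
      ((∃ (c : Fin k → ℂ) (p : Fin k → MvPolynomial (Fin N) ℂ), (∀ i, c i ≠ 0) ∧
        (∀ i : Fin k, T i.succ = C (c i) * X (Fin.natAdd N i) - rename (Fin.castAdd k) (p i)) ∧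
        f = aeval (Fin.append X fun i => C (c i)⁻¹ * p i) (T 0)) ∨
      (∃ (θ : MvPolynomial (Fin (N + k)) ℂ ≃ₐ[ℂ] MvPolynomial (Fin (N + k)) ℂ)
        (q : Fin k → MvPolynomial (Fin (N + k)) ℂ),
        (∀ i, θ (X (Fin.castAdd k i)) = X (Fin.castAdd k i)) ∧
        (∀ i : Fin k, θ (X (Fin.natAdd N i)) = T i.succ) ∧
        T 0 = rename (Fin.castAdd k) f + ∑ i, q i * T i.succ)) →
      (unstab k 1 (topZetaG (exps π m) R)).denom.eval (k : ℂ) ≠ 0 →
      TW AllGlobal StrongHyp StrongTwist (Fin N) f (unstab k 1 (topZetaG (exps π m) R))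
        (fun e => unstab k e (twistedG (exps π m) R e))) ∧
    (∀ {N k r : ℕ}, 1 ≤ r → ∀ (π : Fin r → Fin (k + 1))
      (m : Fin r → Fin (N + k) → ℕ), (∀ j j', π j = π j' → m j = m j' → j = j') →
      (∀ j, π j = 0 → m j ≠ 0) → ∀ a : Fin r → ℂ, Nondeg (exps π m) a →
      ∀ R : SmoothFan (N + (k + k)), Principal (exps π m) R →
      ∀ f : MvPolynomial (Fin N) ℂ, f.totalDegree ≠ 0 →
      ∀ T : Fin (k + 1) → MvPolynomial (Fin (N + k)) ℂ, T = tup π m a (fun _ => 0) →
      ((∃ (c : Fin k → ℂ) (p : Fin k → MvPolynomial (Fin N) ℂ), (∀ i, c i ≠ 0) ∧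
        (∀ i : Fin k, T i.succ = C (c i) * X (Fin.natAdd N i) - rename (Fin.castAdd k) (p i)) ∧
        f = aeval (Fin.append X fun i => C (c i)⁻¹ * p i) (T 0)) ∨
      (∃ (θ : MvPolynomial (Fin (N + k)) ℂ ≃ₐ[ℂ] MvPolynomial (Fin (N + k)) ℂ)
        (q : Fin k → MvPolynomial (Fin (N + k)) ℂ),
        (∀ i, θ (X (Fin.castAdd k i)) = X (Fin.castAdd k i)) ∧
        (∀ i : Fin k, θ (X (Fin.natAdd N i)) = T i.succ) ∧
        T 0 = rename (Fin.castAdd k) f + ∑ i, q i * T i.succ)) →
      (∀ i : ℕ, ((RatFunc.X + 1) * topZetaG (exps π m) R).denom.eval ((i : ℂ) - 1) ≠ 0) →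
      (∀ e : ℕ, 2 ≤ e → ∀ i : ℕ, (twistedG (exps π m) R e).denom.eval ((i : ℂ) - 1) ≠ 0) →
      (unstab k 1 (topZetaG (exps π m) R)).denom.eval (k : ℂ) ≠ 0 →
      TW WeakAt WeakHyp WeakTwist (Fin N) f (unstab k 1 (topZetaG (exps π m) R))
        (fun e => unstab k e (twistedG (exps π m) R e))) := by
  have hS := Pool.Agent.X271.TcT.allGlobal_mon false
  have hS' := Pool.Agent.X271.TcT.strongHyp_mon false
  have hS'' := Pool.Agent.X271.TtT.strongTwist_mon false
  have ht : ∀ t : ℂ, Sh false t → t = 0 := by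
    rintro t (h | ⟨h, -⟩)
    · exact h
    · exact absurd h (by simp)
  have ht' : ∀ t : ℂ, Sh true t → ∃ i : ℕ, t = i := by
    rintro t (h | ⟨-, h⟩)
    · exact ⟨0, by rw [h, Nat.cast_zero]⟩
    · exact h
  refine ⟨fun w At HAt HT h1 h2 h3 => ⟨Pool.Agent.X271.TtT.tw_closure w At HAt HT h1 h2 h3,
    fun σ f Z h e he s₀ hs => Pool.Agent.X271.TtT.pw_root w σ f Z
      (Pool.Agent.X271.TtT.pw_closure w At HAt HT h1 h2 h3 σ f Z h) e he s₀ hs⟩,
    fun σ f Z h b hb e he s₀ hs => ?_, ⟨fun σ f Z h b hb e he s₀ hs => ?_,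
    fun σ f Z W h c hc e he s₀ hs => ?_⟩, ?_, ?_⟩
  · obtain ⟨t, h1, h2⟩ := Pool.Agent.X271.TtT.pw_root true σ f Z
      (Pool.Agent.X271.TtT.pw_closure true _ _ _ Pool.Agent.X271.TcT.weakAt_mon
        Pool.Agent.X271.TcT.weakHyp_mon Pool.Agent.X271.TtT.weakTwist_mon σ f Z h) e he s₀ hs
    obtain ⟨i, rfl⟩ := ht' t h1
    exact ⟨i, h2 b hb⟩
  · obtain ⟨t, h1, h2⟩ := Pool.Agent.X271.TtT.pw_root false σ f Z
      (Pool.Agent.X271.TtT.pw_closure false _ _ _ hS hS' hS'' σ f Z h) e he s₀ hs
    have h3 := h2 b hb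
    rw [ht t h1, sub_zero] at h3
    exact h3
  · obtain ⟨t, h1, h2⟩ := Pool.Agent.X271.TtT.red_root false σ f Z W
      (Pool.Agent.X271.TtT.tw_closure false _ _ _ hS hS' hS'' σ f Z W h) e he s₀ hs
    have h3 := h2 c hc
    rw [ht t h1, sub_zero] at h3
    exact h3
  · intro N k r hr F π m hinj hm H hH a ha R hR f hf T hT h hk
    exact Pool.Agent.X271.TtT.comp_tw hr F π m hinj hm H hH a ha R hR f hf T hT h hk
  · intro N k r hr π m hinj hm a hnd R hR f hf T hT h h1 h2 hk
    exact Pool.Agent.X271.TtT.comp_tw_nd hr π m hinj hm a hnd R hR f hf T hT h h1 h2 hk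

end Pool.Agent.Results.MP_b22d1f_ag.ThomSebastianiTwisted
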